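import Pool.Agent.H582AR.Prob
import Pool.Agent.Q293.ARLift

/-!
# The free group of rank two is not algebraically recurrent

The wreath product of two infinite cyclic groups is generated by two elements and carries a
symmetric generating measure which is not algebraically recurrent (starting files). A symmetric
generating measure on a quotient lifts to a symmetric generating measure on the group: the mass of
a coset is spread over the whole coset.
-/

set_option autoImplicit false

open MeasureTheory

namespace Pool.Agent.Results.MP_3ace2b_pr.FreeGroupTwoNotAR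

/-- `μ` is symmetric, and its support generates the group. -/
def Admissible {G : Type} [Group G] (μ : PMF G) : Prop :=
  (∀ g : G, μ g⁻¹ = μ g) ∧ Subgroup.closure μ.support = ⊤

/-- The law of the i.i.d. steps `ω 0, ω 1, ...` with law `μ`. -/
noncomputable def steps {G : Type} [MeasurableSpace G] (μ : PMF G) : Measure (ℕ → G) :=
  Measure.infinitePi (fun _ : ℕ => μ.toMeasure)

/-- The walk: `walk ω m = ω 0 * ω 1 * ... * ω (m - 1)`. -/
def walk {G : Type} [Group G] (ω : ℕ → G) (m : ℕ) : G := ((List.range m).map ω).prod

/-- The semigroup generated by `walk ω n, walk ω (n + 1), ...`. -/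
def tail {G : Type} [Group G] (ω : ℕ → G) (n : ℕ) : Subsemigroup G :=
  Subsemigroup.closure {g | ∃ m, n ≤ m ∧ g = walk ω m}

section Helpers

open Pool.Agent.H582AR

lemma base [MeasurableSpace W] [DiscreteMeasurableSpace W] :
    ∀ᵐ ω ∂(Q293.AR.steps nu), ∃ n : ℕ, 1 ≤ n ∧ (1 : W) ∉ Q293.AR.tail ω n := by
  unfold Q293.AR.steps
  filter_upwards [nu_strong] with ω hω
  obtain ⟨n, hn, z, hz, hz0, h⟩ := hω
  refine ⟨n, hn, fun h1 => ?_⟩
  have hle : Q293.AR.tail ω n ≤ Pz z hz hz0 := by
    unfold Q293.AR.tail
    rw [Subsemigroup.closure_le]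
    rintro _ ⟨m, hm, rfl⟩
    exact h m hm
  exact one_notMem_Pz z hz hz0 (hle h1)

/-- the quotient map -/
noncomputable def quo : FreeGroup (Fin 2) →* W :=
  FreeGroup.lift (fun i => if i = 0 then W.t else W.a)

lemma quo_surj : Function.Surjective quo := by
  rw [← MonoidHom.range_eq_top]
  apply closure_ta
  · exact ⟨FreeGroup.of 0, by simp [quo]⟩
  · exact ⟨FreeGroup.of 1, by simp [quo]⟩

end Helpers

/-- The free group of rank two is not algebraically recurrent: there are a symmetric probability
measure `μ` on it whose support generates it, and an `n ≥ 1`, such that the semigroup generated by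
the walk from time `n` on is different from the group with positive probability; in fact, almost
surely, the identity is missing from the semigroup generated by the walk after some time. (Every
subset of the group is measurable.) -/
theorem result [MeasurableSpace (FreeGroup (Fin 2))]
    [DiscreteMeasurableSpace (FreeGroup (Fin 2))] :
    ∃ μ : PMF (FreeGroup (Fin 2)), Admissible μ ∧
      (∃ n : ℕ, 1 ≤ n ∧ 0 < steps μ {ω | tail ω n ≠ ⊤}) ∧
      (∀ᵐ ω ∂(steps μ), ∃ n : ℕ, 1 ≤ n ∧ (1 : FreeGroup (Fin 2)) ∉ tail ω n) := by
  have hcount : Countable (FreeGroup (Fin 2)) :=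
    Function.Surjective.countable (f := FreeGroup.mk) Quot.mk_surjective
  let _ : MeasurableSpace Pool.Agent.H582AR.W := ⊤
  have : DiscreteMeasurableSpace Pool.Agent.H582AR.W := ⟨fun _ => trivial⟩
  have hs := Q293.AR.not_one_of_map quo (Q293.AR.liftLaw quo quo_surj Pool.Agent.H582AR.nu)
    (by rw [Q293.AR.liftLaw_map]; exact base)
  exact ⟨Q293.AR.liftLaw quo quo_surj Pool.Agent.H582AR.nu,
    ⟨Q293.AR.liftLaw_symm _ _ _ Pool.Agent.H582AR.nu_symm,
      Q293.AR.liftLaw_gen _ _ _ Pool.Agent.H582AR.nu_closure⟩, Q293.AR.pos_of_ae _ hs, hs⟩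

end Pool.Agent.Results.MP_3ace2b_pr.FreeGroupTwoNotAR
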